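import Mathlib

/-!
Riemannian metrics of class `C^{1,β}` on smooth surfaces, their unit tangent bundle, geodesics,
Liouville measure, and zero Kolmogorov-Sinai entropy.
-/

open scoped ContDiff Topology Manifold NNReal ENNReal
open Set Filter MeasureTheory Complex

noncomputable section

namespace Pool.Agent.MP_ff5407_an.H58

/-- All changes of charts of the atlas have positive Jacobian determinant. -/
def Oriented (M : Type) [TopologicalSpace M] [ChartedSpace ℂ M] : Prop :=
  ∀ e ∈ atlas ℂ M, ∀ f ∈ atlas ℂ M, ∀ y ∈ (e.symm.trans f).source,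
    0 < (fderiv ℝ (e.symm.trans f) y).det

/-- The space has a finite CW structure of dimension at most two with Euler characteristic
`2 - 2 γ`. -/
def HasGenus (M : Type) [TopologicalSpace M] (γ : ℕ) : Prop :=
  ∃ C : Topology.CWComplex (univ : Set M), (∀ k, Finite (C.cell k)) ∧
    (∀ k, 3 ≤ k → IsEmpty (C.cell k)) ∧
    (Nat.card (C.cell 0) : ℤ) - Nat.card (C.cell 1) + Nat.card (C.cell 2) = 2 - 2 * γ

/-- The Kolmogorov-Sinai entropy of `T` vanishes: for every finite measurable partition `P`, the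
Shannon entropy of the join of `P, T⁻¹ P, …, T⁻⁽ⁿ⁻¹⁾ P` divided by `n` tends to zero. -/
def ZeroEntropy {X : Type} [MeasurableSpace X] (μ : Measure X) (T : X → X) : Prop :=
  ∀ (k : ℕ) (P : X → Fin k), Measurable P →
    Tendsto (fun n : ℕ => (∑ w : Fin n → Fin k,
      Real.negMulLog (μ.real {x | ∀ i : Fin n, P (T^[i] x) = w i})) / n) atTop (𝓝 0)

variable {M : Type} [TopologicalSpace M] [ChartedSpace ℂ M] [IsManifold 𝓘(ℝ, ℂ) ∞ M]

/-- The coordinates (position, velocity) of the tangent vector `v` in the chart at `x`. -/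
def crd (x : M) (v : TangentBundle 𝓘(ℝ, ℂ) M) : ℂ × ℂ :=
  (chartAt ℂ x v.1, (trivializationAt ℂ (TangentSpace 𝓘(ℝ, ℂ)) x v).2)

/-- A Riemannian metric of class `C^{1,β}`: inner products `g p` on the tangent planes such that
the coefficients `y ↦ G x y a b` of their expression in the chart at `x` are continuously
differentiable with locally `β`-Hölder derivative. -/
structure Met (β : ℝ≥0) (M : Type) [TopologicalSpace M] [ChartedSpace ℂ M]
    [IsManifold 𝓘(ℝ, ℂ) ∞ M] where
  g : ∀ p : M, TangentSpace 𝓘(ℝ, ℂ) p →L[ℝ] TangentSpace 𝓘(ℝ, ℂ) p →L[ℝ] ℝ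
  symm : ∀ p a b, g p a b = g p b a
  pos : ∀ p a, a ≠ 0 → 0 < g p a a
  G : M → ℂ → ℂ → ℂ → ℝ
  compat : ∀ x, ∀ p ∈ (chartAt ℂ x).source, ∀ a b : TangentSpace 𝓘(ℝ, ℂ) p,
    g p a b = G x (chartAt ℂ x p) (crd x ⟨p, a⟩).2 (crd x ⟨p, b⟩).2
  c1 : ∀ x a b, ContDiffOn ℝ 1 (fun y => G x y a b) (chartAt ℂ x).target
  hol : ∀ x a b, ∀ y ∈ (chartAt ℂ x).target, ∃ C, ∃ U ∈ 𝓝 y,
    HolderOnWith C β (fderiv ℝ fun y => G x y a b) U

variable {β : ℝ≥0}

/-- In every chart the metric is smooth off a closed set of Lebesgue measure zero. -/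
def Met.SmoothAE (m : Met β M) : Prop :=
  ∀ x, ∃ N : Set ℂ, IsClosed N ∧ volume N = 0 ∧
    ∀ a b, ContDiffOn ℝ ∞ (fun y => m.G x y a b) ((chartAt ℂ x).target \ N)

/-- The unit tangent bundle. -/
def Met.UT (m : Met β M) : Type := {v : TangentBundle 𝓘(ℝ, ℂ) M // m.g v.1 v.2 v.2 = 1}

/-- A unit vector as a tangent vector. -/
def Met.vec (m : Met β M) (v : m.UT) : TangentBundle 𝓘(ℝ, ℂ) M := Subtype.val v

/-- The topology induced by the tangent bundle. -/
instance Met.utTop (m : Met β M) : TopologicalSpace m.UT :=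
  TopologicalSpace.induced m.vec inferInstance

/-- The Borel sets of the unit tangent bundle. -/
instance Met.utBorel (m : Met β M) : MeasurableSpace m.UT := borel m.UT

/-- The base point of a unit vector. -/
def Met.base (m : Met β M) (v : m.UT) : M := (m.vec v).1

/-- The position coordinate of a unit vector in the chart at `x`. -/
def Met.cy (m : Met β M) (x : M) (v : m.UT) : ℂ := (crd x (m.vec v)).1

/-- The velocity coordinate of a unit vector in the chart at `x`. -/
def Met.cw (m : Met β M) (x : M) (v : m.UT) : ℂ := (crd x (m.vec v)).2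

/-- The continuous curve `V` of unit vectors is the velocity curve of a geodesic: at each time `t`,
in the chart at the base point `x` of `V t`, with coordinates `(y, w)`, one has `y' = w` and the
Euler-Lagrange equation `(d/dt) G_y(w, a) = (1/2) ∂_a G_y(w, w)` of the energy. -/
def Met.IsGeod (m : Met β M) (V : ℝ → m.UT) : Prop :=
  Continuous V ∧ ∀ (t : ℝ) (x : M), x = m.base (V t) →
    HasDerivAt (fun s => m.cy x (V s)) (m.cw x (V t)) t ∧
    ∀ a : ℂ, HasDerivAt (fun s => m.G x (m.cy x (V s)) (m.cw x (V s)) a)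
      (1 / 2 * fderiv ℝ (fun y => m.G x y (m.cw x (V t)) (m.cw x (V t))) (m.cy x (V t)) a) t

/-- The measure `μ` is a multiple of the Liouville measure: in every chart, the measure of `A` is
a constant times the volume of the cone `{r v : v ∈ A, 0 < r ≤ 1}` for the canonical volume
`det G(y) dy dw` of the tangent bundle. -/
def Met.IsLiouville (m : Met β M) (μ : Measure m.UT) : Prop :=
  ∃ C : ℝ≥0, ∀ (x : M) (A : Set m.UT), MeasurableSet A →
    (∀ v ∈ A, m.base v ∈ (chartAt ℂ x).source) →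
    μ A = C * ∫⁻ z in {z : ℂ × ℂ | ∃ v ∈ A, ∃ r ∈ Ioc (0 : ℝ) 1, z = (m.cy x v, r • m.cw x v)},
      ENNReal.ofReal (m.G x z.1 1 1 * m.G x z.1 I I - m.G x z.1 1 I ^ 2)

end Pool.Agent.MP_ff5407_an.H58
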