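import Pool.Agent.MP_ff5407_an.H58.Base

/-! Reducible working copies of the unit tangent bundle, geodesics and Liouville measure. -/

open scoped ContDiff Topology Manifold NNReal ENNReal
open Set Filter MeasureTheory Complex

noncomputable section

namespace Pool.Agent.MP_ff5407_an.H58

variable {M : Type} [TopologicalSpace M] [ChartedSpace ℂ M] [IsManifold 𝓘(ℝ, ℂ) ∞ M]
variable {β : ℝ≥0}

/-- The unit tangent bundle, with the topology induced by the tangent bundle. -/
abbrev Met.SM (m : Met β M) : Type := {v : TangentBundle 𝓘(ℝ, ℂ) M // m.g v.1 v.2 v.2 = 1}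

/-- The Borel sets of the unit tangent bundle. -/
instance Met.instBorel (m : Met β M) : MeasurableSpace m.SM := borel m.SM

/-- The continuous curve `V` of unit vectors is the velocity curve of a geodesic: at each time `t`,
in the chart at the base point of `V t`, with coordinates `(y, w)`, one has `y' = w` and the
Euler-Lagrange equation `(d/dt) G_y(w, a) = (1/2) ∂_a G_y(w, w)` of the energy. -/
def Met.Geod (m : Met β M) (V : ℝ → m.SM) : Prop :=
  Continuous V ∧ ∀ t : ℝ,
    HasDerivAt (fun s => (crd (V t).1.1 (V s).1).1) (crd (V t).1.1 (V t).1).2 t ∧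
    ∀ a : ℂ, HasDerivAt
      (fun s => m.G (V t).1.1 (crd (V t).1.1 (V s).1).1 (crd (V t).1.1 (V s).1).2 a)
      (1 / 2 * fderiv ℝ (fun y => m.G (V t).1.1 y (crd (V t).1.1 (V t).1).2
        (crd (V t).1.1 (V t).1).2) (crd (V t).1.1 (V t).1).1 a) t

/-- The measure `μ` is a multiple of the Liouville measure: in every chart, the measure of `A` is
a constant times the volume of the cone `{r v : v ∈ A, 0 < r ≤ 1}` for the canonical volume
`det G(y) dy dw` of the tangent bundle. -/
def Met.Liouville (m : Met β M) (μ : Measure m.SM) : Prop :=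
  ∃ C : ℝ≥0, ∀ (x : M) (A : Set m.SM), MeasurableSet A →
    (∀ v ∈ A, v.1.1 ∈ (chartAt ℂ x).source) →
    μ A = C * ∫⁻ z in {z : ℂ × ℂ | ∃ v ∈ A, ∃ r ∈ Ioc (0 : ℝ) 1,
        z = ((crd x v.1).1, r • (crd x v.1).2)},
      ENNReal.ofReal (m.G x z.1 1 1 * m.G x z.1 I I - m.G x z.1 1 I ^ 2)

theorem Met.isGeod_iff (m : Met β M) (V : ℝ → m.SM) : m.IsGeod V ↔ m.Geod V :=
  ⟨fun h => ⟨h.1, fun t => h.2 t _ rfl⟩, fun h => ⟨h.1, fun t x hx => by
    subst hx
    exact h.2 t⟩⟩

end Pool.Agent.MP_ff5407_an.H58
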