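import Pool.Agent.MP_ff5407_an.H58.Spec

/-! The rows imply the theorem. -/

open scoped ContDiff Topology Manifold NNReal ENNReal ComplexConjugate
open Set Filter MeasureTheory Complex

noncomputable section

namespace Pool.Agent.MP_ff5407_an.H58

theorem main (a6 : RA6) (a7 : RA7) (b0 : RB0) (b1 : RB1) (b2 : RB2) (b3 : RB3) (b4b : RB4b)
    (b4 : RB4) (b5a : RB5a) (b5b : RB5b) (b6 : RB6) (b7 : RB7) (d0 : RD0) (d2 : RD2) (d3 : RD3)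
    (d4 : RD4) (d5 : RD5) (d6 : RD6) (d7 : RD7) (d8 : RD8) (e3 : RE3) (f0 : RF0) (f1 : RF1)
    (f2 : RF2) (f3a : RF3a) (f3 : RF3) (f4 : RF4) (f5a : RF5a) (f5b : RF5b) (f5 : RF5) (c1 : RC1)
    (c2a : RC2a) (c2 : RC2) (c3a : RC3a) (c3b : RC3b) (c3c : RC3c) (c4 : RC4) (c5a : RC5a)
    (c5b : RC5b) (c6 : RC6) (c7a : RC7a) (c7b : RC7b) (c7c : RC7c) (c8b : RC8b) (c8 : RC8)
    (c9 : RC9) :
    ∃ (M : Type) (_ : TopologicalSpace M) (_ : T2Space M) (_ : CompactSpace M)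
      (_ : ConnectedSpace M) (_ : ChartedSpace ℂ M) (_ : IsManifold 𝓘(ℝ, ℂ) ∞ M),
      Oriented M ∧ HasGenus M 3 ∧ ∀ β : ℝ≥0, β < 1 / 2 → ∃ m : Met β M, m.SmoothAE ∧
        ∃ Φ : Flow ℝ m.SM, (∀ v, m.Geod fun t => Φ t v) ∧
          (∀ V, m.Geod V → ∀ t, V t = Φ t (V 0)) ∧
          ∃ μ : Measure m.SM, IsProbabilityMeasure μ ∧ m.Liouville μ ∧
            (∀ t, MeasurePreserving (Φ t) μ μ) ∧ ZeroEntropy μ (Φ 1) := by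
  obtain ⟨P, hP⟩ := c1
  have hT := c3a _ P hP
  obtain ⟨cs, hC, hM, hO⟩ := c3b _ P hP hT
  refine ⟨Srf, inferInstance, inferInstance, c2a.2.2.1, c2a.2.2.2, cs, hM, hO, c2, ?_⟩
  intro β hβ
  have hβ' : (β : ℝ) < 1 / 2 := by exact_mod_cast hβ
  have hβ1 : β ≤ 1 := by
    have : (β : ℝ) ≤ 1 := by linarith
    exact_mod_cast this
  obtain ⟨q, E, hq⟩ := a7 β β.2 hβ'
  have hp := hq.toPre
  obtain ⟨H, nn, hR⟩ := a6 q hp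
  have hI := c3c _ P hC hT
  obtain ⟨m, hm⟩ := c4 _ P β q H nn hC hI hR (c5a β q E H nn hβ1 hq hR)
  obtain ⟨Q, hQ⟩ := c7b _ P β q H nn m hC hR hm
  have hph := c7c _ P β q H nn m Q hC hI hR hQ
  have hB := b0 q hp
  have hF := b1 q hp hB
  have hU := b2 q hp hB
  have hO6 := b6 q hp
  have hMM := b4 q hp hB b3 (b4b q hp hB b3)
  haveI := c7a Srf
  haveI : BorelSpace m.SM := ⟨rfl⟩
  obtain ⟨hcp, hsc⟩ := d0 _ Q hph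
  have hTO := d2 _ Q q hph hO6
  obtain ⟨Φ, hΦ⟩ := d4 _ Q q hph hF (d3 _ Q q hph hF hU hTO)
  obtain ⟨hs1, hs2⟩ := d5 _ Q q Φ hph hF hU hTO hΦ
  obtain ⟨μ, c, hμ, hmu⟩ := d7 _ Q q hph hMM (d6 _ Q q hph b3 (b7 q hp b3))
  have hinv := d8 _ Q q Φ μ c hph hF hMM hΦ hmu
  obtain ⟨g1, g2⟩ := c9 _ P β q H nn m Q hC hm hQ (c6 q H nn hp hR)
  obtain ⟨k1, k2, k3⟩ := f0 q hp hB hF
  have hst := f1 β q E hq hF (b5a q hp hF hO6) (b5b q hp hB hF) f2 k1 k3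
  have htr := f3 _ Q q E Φ f2 hst (f3a _ Q hph f2) hΦ
  have hbow := f5 _ Q q E Φ μ hph f2 k2 hΦ htr (f4 _ Q β q E Φ μ c hph hq hF hMM hΦ hmu hinv)
    (f5b _ Q Φ hph) f5a
  refine ⟨m, ?_, Φ, fun v => g1 _ (hs1 v), fun V hV => hs2 V (g2 V hV), μ, hμ,
    c8 _ P β q H nn m Q μ c hC hm hQ (c8b q H nn hp hR b3) hmu, hinv,
    e3 _ μ (Φ 1) (hinv 1) hbow⟩
  intro x
  obtain ⟨N, h1, h2, h3⟩ := c5b β q E H nn hq hR
  refine ⟨N, h1, h2, fun a b => ?_⟩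
  rw [hm x]
  exact (h3 a b).mono fun y hy => hy.2

end Pool.Agent.MP_ff5407_an.H58
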