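import Pool.Agent.MP_ff5407_an.H58.Defs

/-!
Internal definitions and the rows of the proof that a genus three surface carries metrics of class
`C^{1,β}`, `β < 1/2`, with zero Liouville entropy.  The surface is a translation surface with four
cone points of angle `4π`; each cone point is replaced by a rotationally symmetric cap with metric
`S(ρ²)² dρ² + ρ² dθ²` which deflects geodesics by an angle that is locally constant off a Cantor set.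
-/

open scoped ContDiff Topology Manifold NNReal ENNReal ComplexConjugate
open Set Filter MeasureTheory Complex

noncomputable section

namespace Pool.Agent.MP_ff5407_an.H58

/-! ### The model flow -/

instance circMeas : MeasurableSpace Circle := borel Circle
instance circBorel : BorelSpace Circle := ⟨rfl⟩

/-- The model phase space. -/
abbrev Y := ℂ × Circle

def SS (q : ℝ → ℝ) (u : ℝ) : ℝ := 1 + u * q u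
def uu (p : Y) : ℝ := (p.1 * conj (p.2 : ℂ)).re
def xi (p : Y) : ℝ := -(p.1 * conj (p.2 : ℂ)).im
def tau (q : ℝ → ℝ) (ξ u : ℝ) : ℝ := ∫ v in (0 : ℝ)..u, SS q (v ^ 2 + ξ ^ 2)
def Th (q : ℝ → ℝ) (ξ u : ℝ) : ℝ := ∫ v in (0 : ℝ)..u, ξ * q (v ^ 2 + ξ ^ 2)
def ut (q : ℝ → ℝ) (ξ t : ℝ) : ℝ := Function.invFun (tau q ξ) t

/-- The point with invariant `ξ`, time `t` and phase `c`. -/
def Xi (q : ℝ → ℝ) (z : ℝ × ℝ × Circle) : Y :=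
  (((ut q z.1 z.2.1 : ℂ) - z.1 * I) * (z.2.2 * Circle.exp (Th q z.1 (ut q z.1 z.2.1)) : Circle),
    z.2.2 * Circle.exp (Th q z.1 (ut q z.1 z.2.1)))

/-- The model flow. -/
def psi (q : ℝ → ℝ) (t : ℝ) (p : Y) : Y :=
  Xi q (xi p, tau q (xi p) (uu p) + t, p.2 * Circle.exp (-Th q (xi p) (uu p)))

def W1 (q : ℝ → ℝ) (p : Y) : ℂ :=
  (p.2 : ℂ) - ((q (‖p.1‖ ^ 2) / SS q (‖p.1‖ ^ 2) * uu p : ℝ) : ℂ) * p.1
def W2 (q : ℝ → ℝ) (p : Y) : ℂ :=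
  I * ((xi p * (q (‖p.1‖ ^ 2) / SS q (‖p.1‖ ^ 2)) : ℝ) : ℂ) * (p.2 : ℂ)

/-- The geodesic equation of the model at time `t`. -/
def Ode (q : ℝ → ℝ) (γ : ℝ → Y) (t : ℝ) : Prop :=
  HasDerivAt (fun s => (γ s).1) (W1 q (γ t)) t ∧
    HasDerivAt (fun s => ((γ s).2 : ℂ)) (W2 q (γ t)) t

/-- The flat coordinate. -/
def zz (x : ℂ) : ℂ := x ^ 2 / (2 * ‖x‖)
/-- The direction in the flat coordinate. -/
def th (p : Y) : ℂ := (p.2 : ℂ) * p.1 / ‖p.1‖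
def Zf (p : Y) : Y := (zz p.1, p.2 * Circle.exp (arg p.1))

def DD (q : ℝ → ℝ) (ξ : ℝ) : ℝ :=
  ∫ v in (-1 / 5 : ℝ)..(1 / 5), ξ * (SS q (v ^ 2 + ξ ^ 2) - 1 / 2) / (v ^ 2 + ξ ^ 2)
def TT (q : ℝ → ℝ) (ξ : ℝ) : ℝ := ∫ v in (-1 / 5 : ℝ)..(1 / 5), (SS q (v ^ 2 + ξ ^ 2) - 1 / 2)

/-- The angle measure (total mass `π`). -/
def cm : Measure Circle :=
  Measure.map (fun z : ℂ => Circle.exp (arg z)) (volume.restrict (Metric.closedBall 0 1))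
/-- The Liouville measure of the model. -/
def mm (q : ℝ → ℝ) : Measure Y :=
  (volume.withDensity fun x : ℂ => ENNReal.ofReal (SS q (‖x‖ ^ 2))).prod cm

def far (E : Set ℝ) (ε ξ : ℝ) : Prop := ε < |ξ| ∧ ∀ b ∈ E, ε < |(|ξ| - b)|

structure Pre (q : ℝ → ℝ) : Prop where
  cont : Continuous q
  lo : ∀ u, 1 / 2 ≤ SS q u
  hi : ∃ K, ∀ u, SS q u ≤ K
  flat : ∀ u, 1 / 25 ≤ u → SS q u = 1 / 2

structure Prof (β : ℝ) (q : ℝ → ℝ) (E : Set ℝ) : Prop extends Pre q where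
  hol : ∀ R : ℝ, ∃ C : ℝ, ∀ u ∈ Icc 0 R, ∀ v ∈ Icc 0 R, |q u - q v| ≤ C * |u - v| ^ β
  smooth : ∀ u, (∀ b ∈ E, b ^ 2 ≠ u) → ContDiffAt ℝ ∞ q u
  closed : IsClosed E
  sub : E ⊆ Icc (1 / 10) (1 / 5)
  null : volume E = 0
  thick : ∃ C γ : ℝ, 0 < γ ∧ ∀ ε ∈ Ioc (0 : ℝ) 1,
    volume {ξ | ¬ far E ε ξ} ≤ ENNReal.ofReal (C * ε ^ γ)
  lens : ∀ ξ ξ' : ℝ, 0 < ξ * ξ' → (∀ b ∈ E, |ξ| < b ↔ |ξ'| < b) →
    DD q ξ = DD q ξ' ∧ TT q ξ = TT q ξ'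

structure Bas (q : ℝ → ℝ) : Prop where
  tau_ut : ∀ ξ t, tau q ξ (ut q ξ t) = t
  ut_tau : ∀ ξ u, ut q ξ (tau q ξ u) = u
  mono : ∀ ξ, StrictMono (tau q ξ)
  c_tau : Continuous fun z : ℝ × ℝ => tau q z.1 z.2
  c_Th : Continuous fun z : ℝ × ℝ => Th q z.1 z.2
  c_ut : Continuous fun z : ℝ × ℝ => ut q z.1 z.2
  d_tau : ∀ ξ u, HasDerivAt (tau q ξ) (SS q (u ^ 2 + ξ ^ 2)) u
  d_Th : ∀ ξ u, HasDerivAt (Th q ξ) (ξ * q (u ^ 2 + ξ ^ 2)) u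
  d_ut : ∀ ξ t, HasDerivAt (ut q ξ) (SS q (ut q ξ t ^ 2 + ξ ^ 2))⁻¹ t

structure Fl (q : ℝ → ℝ) : Prop where
  zero : ∀ p, psi q 0 p = p
  add : ∀ s t p, psi q (s + t) p = psi q s (psi q t p)
  cont : Continuous fun z : ℝ × Y => psi q z.1 z.2
  xi_eq : ∀ t p, xi (psi q t p) = xi p
  uu_eq : ∀ t p, uu (psi q t p) = ut q (xi p) (tau q (xi p) (uu p) + t)
  ode : ∀ p t, Ode q (fun s => psi q s p) t
  mono : ∀ p s t, s ≤ t → uu (psi q s p) ≤ uu (psi q t p)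
  lip : ∀ t p, |uu (psi q t p) - uu p| ≤ 2 * |t|
  speed : ∀ t p, |‖(psi q t p).1‖ - ‖p.1‖| ≤ 2 * |t|

/-- Uniqueness for the model equation. -/
def Uniq (q : ℝ → ℝ) : Prop :=
  ∀ (γ : ℝ → Y) (a b : ℝ), (∀ t ∈ Ioo a b, Ode q γ t) →
    ∀ s ∈ Ioo a b, ∀ t ∈ Ioo a b, γ t = psi q (t - s) (γ s)

/-- In the flat region the model equation says that the flat coordinate moves on a line. -/
def FlatOde (q : ℝ → ℝ) : Prop :=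
  ∀ (γ : ℝ → Y) (t : ℝ), ContinuousAt γ t → 1 / 5 ≤ ‖(γ t).1‖ →
    (Ode q γ t ↔ HasDerivAt (fun s => zz (γ s).1) (th (γ t)) t ∧
      HasDerivAt (fun s => th (γ s)) 0 t)

def FlatA (q : ℝ → ℝ) : Prop :=
  ∀ (p : Y) (t : ℝ), 0 ≤ t → (∀ s ∈ Icc 0 t, 1 / 5 ≤ ‖(psi q s p).1‖) →
    zz (psi q t p).1 = zz p.1 + t * th p ∧ th (psi q t p) = th p

def FlatB (q : ℝ → ℝ) : Prop :=
  ∀ (p : Y) (t : ℝ), 0 ≤ t → 1 / 5 ≤ ‖p.1‖ → 1 / 5 ≤ ‖(psi q t p).1‖ → xi p ≠ 0 → uu p ≤ 0 →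
    0 ≤ uu (psi q t p) → 0 ≤ TT q (xi p) ∧ TT q (xi p) ≤ t ∧
      zz (psi q t p).1 = exp (2 * DD q (xi p) * I) * (zz p.1 + (t - TT q (xi p)) * th p) ∧
      th (psi q t p) = exp (2 * DD q (xi p) * I) * th p

structure CM : Prop where
  fin : IsFiniteMeasure cm
  pos : cm univ ≠ 0
  inv : ∀ c : Circle, MeasurePreserving (fun e : Circle => e * c) cm cm
  cone : ∀ B : Set Circle, MeasurableSet B →
    cm B = volume {z : ℂ | ∃ e ∈ B, ∃ r ∈ Ioc (0 : ℝ) 1, z = r • (e : ℂ)}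

structure MM (q : ℝ → ℝ) : Prop where
  inv : ∀ t, MeasurePreserving (psi q t) (mm q) (mm q)
  bad : ∃ C : ℝ≥0, ∀ B : Set ℝ, mm q {p | ‖p.1‖ ≤ 1 ∧ xi p ∈ B} ≤ C * volume B
  fin : mm q {p | ‖p.1‖ < 17 / 10} ≠ ⊤
  pos : mm q {p | ‖p.1‖ < 17 / 10} ≠ 0

def FlatM (q : ℝ → ℝ) : Prop :=
  ∀ (c : ℂ) (A : Set Y), MeasurableSet A →
    (∀ p ∈ A, 1 / 5 ≤ ‖p.1‖ ∧ 0 < (p.1 * conj c).re) → mm q A = (volume.prod cm) (Zf '' A)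

theorem pos_eq (p : Y) : p.1 = ((uu p : ℂ) - xi p * I) * p.2 := by
  have h : (uu p : ℂ) - xi p * I = p.1 * conj (p.2 : ℂ) := by
    apply Complex.ext <;> simp [uu, xi]
  rw [h, mul_assoc, mul_comm (conj (p.2 : ℂ)), Complex.mul_conj, Circle.normSq_coe]
  simp

theorem norm_sq_eq (p : Y) : ‖p.1‖ ^ 2 = uu p ^ 2 + xi p ^ 2 := by
  have h : ‖p.1‖ = ‖(uu p : ℂ) - xi p * I‖ := by
    conv_lhs => rw [pos_eq p]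
    rw [norm_mul, Circle.norm_coe, mul_one]
  rw [h, Complex.sq_norm, Complex.normSq_apply]
  simp
  ring

theorem Zf_snd (p : Y) (h : p.1 ≠ 0) : ((Zf p).2 : ℂ) = th p := by
  have h1 : (‖p.1‖ : ℂ) ≠ 0 := by simpa using h
  have h2 := Complex.norm_mul_exp_arg_mul_I p.1
  simp only [Zf, th, Circle.coe_mul, Circle.coe_exp]
  rw [eq_div_iff h1]
  linear_combination (p.2 : ℂ) * h2

theorem norm_zz (x : ℂ) : ‖zz x‖ = ‖x‖ / 2 := by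
  by_cases h : x = 0
  · simp [zz, h]
  · have h1 : ‖x‖ ≠ 0 := by simpa using h
    simp only [zz, norm_div, norm_pow, norm_mul, Complex.norm_real, norm_norm, Complex.norm_ofNat]
    field_simp

/-! ### Block A: the profile -/

def Sf (ν : Measure ℝ) (u : ℝ) : ℝ := 1 / 2 + ∫ b, b / √(b ^ 2 - u) ∂ν

structure Can0 (ν : Measure ℝ) (E : Set ℝ) : Prop where
  closed : IsClosed E
  sub : E ⊆ Icc (1 / 10) (1 / 5)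
  mass : ν univ = 2⁻¹
  supp : ν Eᶜ = 0

structure Can (α : ℝ) (ν : Measure ℝ) (E : Set ℝ) : Prop extends Can0 ν E where
  fro : ∃ C : ℝ, ∀ x r : ℝ, 0 < r → ν (Metric.closedBall x r) ≤ ENNReal.ofReal (C * r ^ α)
  null : volume E = 0
  thick : ∃ C γ : ℝ, 0 < γ ∧ ∀ ε ∈ Ioc (0 : ℝ) 1,
    volume {ξ | ¬ far E ε ξ} ≤ ENNReal.ofReal (C * ε ^ γ)

def RA1a : Prop := ∀ l : ℝ, 0 < l → l < 1 / 2 → ∃ (ν : Measure ℝ) (E : Set ℝ) (c : ℝ),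
  Can0 ν E ∧ 0 < c ∧
  (∀ (k : ℕ) (x : ℝ), ν (Metric.closedBall x (c * l ^ k)) ≤ ENNReal.ofReal ((1 / 2) ^ k)) ∧
  ∀ k : ℕ, ∃ F : Finset ℝ, F.card ≤ 2 ^ k ∧ E ⊆ ⋃ y ∈ F, Metric.closedBall y (l ^ k)

def RA1 : Prop := ∀ α : ℝ, 0 < α → α < 1 → ∃ ν E, Can α ν E

def RA2 : Prop := ∀ (α : ℝ) (ν : Measure ℝ) (E : Set ℝ), Can α ν E → ∀ a : ℝ, 0 < a → a < α →
  ∃ C : ℝ, ∀ u : ℝ, Integrable (fun b : ℝ => |b ^ 2 - u| ^ (-a)) ν ∧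
    ∫ b, |b ^ 2 - u| ^ (-a) ∂ν ≤ C

def RA3 : Prop := ∀ (α : ℝ) (ν : Measure ℝ) (E : Set ℝ), Can α ν E → 1 / 2 < α →
  (∀ u, 1 / 2 ≤ Sf ν u) ∧ (∃ K, ∀ u, Sf ν u ≤ K) ∧ Sf ν 0 = 1 ∧
    (∀ u, 1 / 25 ≤ u → Sf ν u = 1 / 2) ∧
    ∀ β : ℝ, 0 ≤ β → β ≤ 1 → 1 / 2 + β < α → ∃ C : ℝ, ∀ u v, |Sf ν u - Sf ν v| ≤ C * |u - v| ^ β

def RA4 : Prop := ∀ (ν : Measure ℝ) (E : Set ℝ), Can0 ν E →
  ∀ u : ℝ, (∀ b ∈ E, b ^ 2 ≠ u) → AnalyticAt ℝ (Sf ν) u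

def RA5a : Prop := ∀ b ξ : ℝ, 0 < b → b ≤ 1 / 5 →
  IntervalIntegrable (fun v : ℝ => b / √(b ^ 2 - (v ^ 2 + ξ ^ 2))) volume (-1 / 5) (1 / 5) ∧
    ∫ v in (-1 / 5 : ℝ)..(1 / 5), b / √(b ^ 2 - (v ^ 2 + ξ ^ 2)) =
      if |ξ| < b then Real.pi * b else 0

def RA5b : Prop := ∀ b ξ : ℝ, 0 < b → b ≤ 1 / 5 → ξ ≠ 0 →
  ∫ v in (-1 / 5 : ℝ)..(1 / 5), ξ * (b / √(b ^ 2 - (v ^ 2 + ξ ^ 2))) / (v ^ 2 + ξ ^ 2) =
    if |ξ| < b then Real.pi * (ξ / |ξ|) else 0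

def RA5 : Prop := ∀ (ν : Measure ℝ) (E : Set ℝ), Can0 ν E → ∀ q : ℝ → ℝ,
  (∀ u, SS q u = Sf ν u) → ∀ ξ ξ' : ℝ, 0 < ξ * ξ' → (∀ b ∈ E, |ξ| < b ↔ |ξ'| < b) →
    DD q ξ = DD q ξ' ∧ TT q ξ = TT q ξ'

def RA7 : Prop := ∀ β : ℝ, 0 ≤ β → β < 1 / 2 → ∃ q E, Prof β q E

/-- The conformal coordinate `y = H x` of the model and the conformal factor `nn`. -/
structure Rad (q : ℝ → ℝ) (H : ℂ ≃ₜ ℂ) (nn : ℂ → ℝ) : Prop where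
  pos : ∀ y, 0 < nn y
  sym : ∀ y, H.symm y = nn y * y
  der : ∀ y, HasFDerivAt nn
    ((-(q (‖H.symm y‖ ^ 2) / SS q (‖H.symm y‖ ^ 2) * nn y ^ 3)) • innerSL ℝ y) y
  derH : ∀ x, HasFDerivAt (fun x => (nn (H x))⁻¹) ((q (‖x‖ ^ 2) * (nn (H x))⁻¹) • innerSL ℝ x) x
  flat : ∀ x, 1 / 5 ≤ ‖x‖ → H x ^ 2 = zz x
  lt : ∀ x (r : ℝ), 1 / 5 ≤ r → (‖x‖ < r ↔ ‖H x‖ ^ 2 < r / 2)
  le : ∀ x (r : ℝ), 1 / 5 ≤ r → (‖x‖ ≤ r ↔ ‖H x‖ ^ 2 ≤ r / 2)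
  flatn : ∀ y, 1 / 10 ≤ ‖y‖ ^ 2 → nn y = 2 * ‖y‖

def RA6 : Prop := ∀ q, Pre q → ∃ H nn, Rad q H nn

/-! ### Block B: the model -/

def RB0 : Prop := ∀ q, Pre q → Bas q
def RB1 : Prop := ∀ q, Pre q → Bas q → Fl q
def RB2 : Prop := ∀ q, Pre q → Bas q → Uniq q
def RB3 : Prop := CM
def RB4a : Prop := ∀ q, Pre q → Bas q → ∀ ξ, Measure.map (ut q ξ) volume =
  volume.withDensity fun u => ENNReal.ofReal (SS q (u ^ 2 + ξ ^ 2))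
def RB4b : Prop := ∀ q, Pre q → Bas q → CM →
  MeasurePreserving (Xi q) (volume.prod (volume.prod cm)) (mm q)
def RB4 : Prop := ∀ q, Pre q → Bas q → CM →
  MeasurePreserving (Xi q) (volume.prod (volume.prod cm)) (mm q) → MM q
def RB5a : Prop := ∀ q, Pre q → Fl q → FlatOde q → FlatA q
def RB5b : Prop := ∀ q, Pre q → Bas q → Fl q → FlatB q
def RB6 : Prop := ∀ q, Pre q → FlatOde q
def RB7a : Prop := ∀ (c : ℂ) (B : Set ℂ), MeasurableSet B → (∀ x ∈ B, 0 < (x * conj c).re) →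
  MeasurableSet (zz '' B) ∧ volume (zz '' B) = 2⁻¹ * volume B
def RB7 : Prop := ∀ q, Pre q → CM → FlatM q

/-! ### Block D: the flow and the measure on an abstract phase space -/

structure Ph {X : Type} [TopologicalSpace X] (Q : Fin 4 → OpenPartialHomeomorph Y X) : Prop where
  src : ∀ j, (Q j).source = {p | ‖p.1‖ < 17 / 10}
  cov : ∀ v, ∃ j p, ‖p.1‖ ≤ 3 / 2 ∧ Q j p = v
  ovl : ∀ j l p p', ‖p.1‖ < 17 / 10 → ‖p'.1‖ < 17 / 10 → Q j p = Q l p' → j = l ∨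
    (2 ≤ ‖p.1‖ + ‖p'.1‖ ∧ (∃ m n : ℤ, zz p.1 - zz p'.1 = m + n * I) ∧ th p = th p')

section
variable {X : Type} [TopologicalSpace X]

def Loc (q : ℝ → ℝ) (Q : Fin 4 → OpenPartialHomeomorph Y X) (Φ : Flow ℝ X) : Prop :=
  ∀ j p (T : ℝ), (∀ s ∈ uIcc 0 T, ‖(psi q s p).1‖ < 17 / 10) → Φ T (Q j p) = Q j (psi q T p)

def Sol (q : ℝ → ℝ) (Q : Fin 4 → OpenPartialHomeomorph Y X) (V : ℝ → X) : Prop :=
  Continuous V ∧ ∀ t j, V t ∈ (Q j).target → Ode q (fun s => (Q j).symm (V s)) t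

def SolE (q : ℝ → ℝ) (Q : Fin 4 → OpenPartialHomeomorph Y X) (V : ℝ → X) : Prop :=
  Continuous V ∧ ∀ t, ∃ j, V t ∈ (Q j).target ∧ Ode q (fun s => (Q j).symm (V s)) t

def TrOde (q : ℝ → ℝ) (Q : Fin 4 → OpenPartialHomeomorph Y X) : Prop :=
  ∀ j l (γ : ℝ → Y) (t : ℝ), ‖(γ t).1‖ < 17 / 10 → Q j (γ t) ∈ (Q l).target → Ode q γ t →
    Ode q (fun s => (Q l).symm (Q j (γ s))) t

def TrFl (q : ℝ → ℝ) (Q : Fin 4 → OpenPartialHomeomorph Y X) : Prop :=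
  ∀ j l p p' (T : ℝ), Q j p = Q l p' →
    (∀ s ∈ uIcc 0 T, ‖(psi q s p).1‖ < 17 / 10 ∧ ‖(psi q s p').1‖ < 17 / 10) →
    Q j (psi q T p) = Q l (psi q T p')

def TrM (q : ℝ → ℝ) (Q : Fin 4 → OpenPartialHomeomorph Y X) : Prop :=
  ∀ j l (A : Set Y), MeasurableSet A → (∀ p ∈ A, ‖p.1‖ < 17 / 10 ∧ Q j p ∈ (Q l).target) →
    mm q ((fun p => (Q l).symm (Q j p)) '' A) = mm q A

def Mu [MeasurableSpace X] (q : ℝ → ℝ) (Q : Fin 4 → OpenPartialHomeomorph Y X) (μ : Measure X)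
    (c : ℝ≥0) : Prop :=
  ∀ j (A : Set Y), MeasurableSet A → (∀ p ∈ A, ‖p.1‖ < 17 / 10) → μ (Q j '' A) = c * mm q A

def Good (E : Set ℝ) (Q : Fin 4 → OpenPartialHomeomorph Y X) (Φ : Flow ℝ X) (T ε : ℝ) (v : X) :
    Prop :=
  ∀ t ∈ Icc 0 T, ∀ j p, ‖p.1‖ ≤ 3 / 5 → Φ t v = Q j p → far E ε (xi p)

/-- Most of the space is covered by subexponentially many Bowen-small sets. -/
def Bow [MeasurableSpace X] (μ : Measure X) (T : X → X) : Prop :=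
  ∀ R : Set (X × X), IsOpen R → (∀ x, (x, x) ∈ R) → ∀ η : ℝ, 0 < η → ∀ᶠ n : ℕ in atTop,
    ∃ 𝓑 : Finset (Set X), (𝓑.card : ℝ) ≤ Real.exp (η * n) ∧
      μ (⋃ B ∈ 𝓑, B)ᶜ ≤ ENNReal.ofReal η ∧
      ∀ B ∈ 𝓑, ∀ x ∈ B, ∀ y ∈ B, ∀ i < n, (T^[i] x, T^[i] y) ∈ R

end

def RD0 : Prop := ∀ (X : Type) [TopologicalSpace X] (Q : Fin 4 → OpenPartialHomeomorph Y X),
  Ph Q → CompactSpace X ∧ SecondCountableTopology X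

def RD1 : Prop := ∀ (X : Type) [TopologicalSpace X] (F : ℝ → X → X) (τ : ℝ), 0 < τ →
  ContinuousOn (fun z : ℝ × X => F z.1 z.2) (Icc (-τ) τ ×ˢ univ) → (∀ x, F 0 x = x) →
  (∀ s t x, |s| ≤ τ → |t| ≤ τ → |s + t| ≤ τ → F (s + t) x = F s (F t x)) →
  ∃ Φ : Flow ℝ X, ∀ t x, |t| ≤ τ → Φ t x = F t x

def RD2 : Prop := ∀ (X : Type) [TopologicalSpace X] (Q : Fin 4 → OpenPartialHomeomorph Y X) q,
  Ph Q → FlatOde q → TrOde q Q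

def RD3 : Prop := ∀ (X : Type) [TopologicalSpace X] [T2Space X]
  (Q : Fin 4 → OpenPartialHomeomorph Y X) q, Ph Q → Fl q → Uniq q → TrOde q Q → TrFl q Q

def RD4 : Prop := ∀ (X : Type) [TopologicalSpace X] (Q : Fin 4 → OpenPartialHomeomorph Y X) q,
  Ph Q → Fl q → TrFl q Q → ∃ Φ : Flow ℝ X, Loc q Q Φ

def RD5 : Prop := ∀ (X : Type) [TopologicalSpace X] (Q : Fin 4 → OpenPartialHomeomorph Y X) q
  (Φ : Flow ℝ X), Ph Q → Fl q → Uniq q → TrOde q Q → Loc q Q Φ →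
  (∀ v, Sol q Q fun t => Φ t v) ∧ ∀ V, SolE q Q V → ∀ t, V t = Φ t (V 0)

def RD6 : Prop := ∀ (X : Type) [TopologicalSpace X] (Q : Fin 4 → OpenPartialHomeomorph Y X) q,
  Ph Q → CM → FlatM q → TrM q Q

def RD7 : Prop := ∀ (X : Type) [TopologicalSpace X] [MeasurableSpace X] [BorelSpace X]
  (Q : Fin 4 → OpenPartialHomeomorph Y X) q, Ph Q → MM q → TrM q Q →
  ∃ (μ : Measure X) (c : ℝ≥0), IsProbabilityMeasure μ ∧ Mu q Q μ c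

def RD8 : Prop := ∀ (X : Type) [TopologicalSpace X] [MeasurableSpace X] [BorelSpace X]
  (Q : Fin 4 → OpenPartialHomeomorph Y X) q (Φ : Flow ℝ X) (μ : Measure X) (c : ℝ≥0),
  Ph Q → Fl q → MM q → Loc q Q Φ → Mu q Q μ c → ∀ t, MeasurePreserving (Φ t) μ μ

/-! ### Block E: entropy -/

def RE1 : Prop := ∀ (n k m : ℕ) (w0 : Fin n → Fin k) (l : ℝ), 0 < l → l ≤ 1 →
  ((Finset.univ.filter fun w : Fin n → Fin k =>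
    (Finset.univ.filter fun i => w i ≠ w0 i).card ≤ m).card : ℝ) ≤ (1 + k * l) ^ n / l ^ m

def RE2 : Prop := ∀ (W : Type) [Fintype W] (p : W → ℝ) (Ω : Finset W) (N θ : ℝ),
  (∀ w, 0 ≤ p w) → ∑ w, p w = 1 → 1 ≤ N → (Ω.card : ℝ) ≤ N → 1 - θ ≤ ∑ w ∈ Ω, p w →
  ∑ w, Real.negMulLog (p w) ≤ 2 + Real.log N + θ * Real.log (Fintype.card W)

def RE3 : Prop := ∀ (X : Type) [TopologicalSpace X] [T2Space X] [CompactSpace X]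
  [SecondCountableTopology X] [MeasurableSpace X] [BorelSpace X] (μ : Measure X)
  [IsProbabilityMeasure μ] (T : X → X), MeasurePreserving T μ μ → Bow μ T → ZeroEntropy μ T

/-! ### Block F: Bowen covers -/

def Cl (a b : ℝ) (p p' : Y) : Prop :=
  ‖zz p.1 - zz p'.1‖ ≤ a ∧ ‖th p - th p'‖ ≤ b ∧ 0 < (p.1 * conj p'.1).re

structure Lip : Prop where
  of_cl : ∀ (p p' : Y) (a b : ℝ), 1 / 5 ≤ ‖p.1‖ → ‖p.1‖ ≤ 2 → Cl a b p p' →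
    dist p p' ≤ 100 * (a + b)
  to_cl : ∀ (p p' : Y) (r : ℝ), 2 / 5 ≤ ‖p.1‖ → ‖p.1‖ ≤ 2 → dist p p' ≤ r → r ≤ 1 / 10 →
    Cl (100 * r) (100 * r) p p'
  xi_le : ∀ p p' : Y, ‖p.1‖ ≤ 2 → |xi p - xi p'| ≤ 100 * dist p p'
  uu_le : ∀ p p' : Y, ‖p.1‖ ≤ 2 → |uu p - uu p'| ≤ 100 * dist p p'

def Cap (q : ℝ → ℝ) : Prop :=
  ∃ L : ℝ, ∀ p : Y, ‖p.1‖ ≤ 3 / 5 → ∃ t ∈ Icc (1 / 5) L, (∀ s ∈ Icc 0 t, ‖(psi q s p).1‖ ≤ 1) ∧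
    ‖(psi q t p).1‖ = 1 ∧ 0 < uu (psi q t p)

def Safe (q : ℝ → ℝ) : Prop :=
  ∃ N : ℕ, ∀ p : Y, ‖p.1‖ ≤ 3 / 2 → ∃ i ≤ N,
    (∀ s ∈ Icc (0 : ℝ) (i / 20), ‖(psi q s p).1‖ ≤ 3 / 2) ∧ 2 / 5 ≤ ‖(psi q (i / 20) p).1‖

def UC (q : ℝ → ℝ) : Prop :=
  ∀ L η : ℝ, 0 < η → ∃ δ : ℝ, 0 < δ ∧ ∀ p p' : Y, ‖p.1‖ ≤ 2 → dist p p' ≤ δ →
    ∀ s ∈ Icc 0 L, dist (psi q s p) (psi q s p') ≤ η

def Step (q : ℝ → ℝ) (E : Set ℝ) : Prop :=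
  ∃ L δ : ℝ, 0 < δ ∧ ∀ p : Y, 2 / 5 ≤ ‖p.1‖ → ‖p.1‖ ≤ 3 / 2 → ∃ t ∈ Icc (1 / 20) L,
    (∀ s ∈ Icc 0 t, ‖(psi q s p).1‖ ≤ 8 / 5) ∧ 1 / 2 ≤ ‖(psi q t p).1‖ ∧
    ∀ (p' : Y) (a b ε : ℝ), Cl a b p p' → a + b ≤ δ →
      (‖p.1‖ ≤ 3 / 5 → far E ε (xi p) ∧ |xi p - xi p'| ≤ ε) →
      (∀ s ∈ Icc 0 t, ‖(psi q s p').1‖ < 17 / 10) ∧ Cl (a + t * b) b (psi q t p) (psi q t p')

section
variable {X : Type} [TopologicalSpace X]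

def Switch (Q : Fin 4 → OpenPartialHomeomorph Y X) : Prop :=
  ∃ δ : ℝ, 0 < δ ∧ ∀ j (p : Y), 1 / 2 ≤ ‖p.1‖ → ‖p.1‖ ≤ 8 / 5 → ∃ l p1, 2 / 5 ≤ ‖p1.1‖ ∧
    ‖p1.1‖ ≤ 3 / 2 ∧ Q l p1 = Q j p ∧ ∀ (p' : Y) (a b : ℝ), Cl a b p p' → a + b ≤ δ →
      ∃ p1', Q l p1' = Q j p' ∧ Cl a b p1 p1'

def Track (E : Set ℝ) (Q : Fin 4 → OpenPartialHomeomorph Y X) (Φ : Flow ℝ X) : Prop :=
  ∃ L δ : ℝ, 0 < δ ∧ ∀ (T ε r : ℝ) j (p p' : Y), 2 / 5 ≤ ‖p.1‖ → ‖p.1‖ ≤ 3 / 2 → Cl r r p p' →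
    (T + 2) * r ≤ δ → 10000 * ((T + 2) * r) ≤ ε → Good E Q Φ T ε (Q j p) →
    ∀ t ∈ Icc 0 T, ∃ t' ∈ Icc (t - L) t, ∃ l p1 p1', ‖p1.1‖ ≤ 3 / 2 ∧
      dist p1 p1' ≤ 100 * ((T + 2) * r) ∧ Φ t' (Q j p) = Q l p1 ∧ Φ t' (Q j p') = Q l p1'

def BadM [MeasurableSpace X] (E : Set ℝ) (Q : Fin 4 → OpenPartialHomeomorph Y X) (Φ : Flow ℝ X)
    (μ : Measure X) : Prop :=
  ∃ C γ : ℝ, 0 < γ ∧ ∀ T : ℝ, 0 ≤ T → ∀ ε ∈ Ioc (0 : ℝ) 1,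
    μ {v | ¬ Good E Q Φ T ε v} ≤ ENNReal.ofReal (C * (T + 1) * ε ^ γ)

def Tube (Q : Fin 4 → OpenPartialHomeomorph Y X) (Φ : Flow ℝ X) : Prop :=
  ∀ R : Set (X × X), IsOpen R → (∀ x, (x, x) ∈ R) → ∀ L : ℝ, ∃ δ : ℝ, 0 < δ ∧
    ∀ j (p p' : Y), ‖p.1‖ ≤ 3 / 2 → dist p p' ≤ δ → ∀ s ∈ Icc (-L) L,
      (Φ s (Q j p), Φ s (Q j p')) ∈ R

end

def Cells : Prop :=
  ∃ C : ℝ, ∀ r ∈ Ioc (0 : ℝ) 1, ∃ 𝓒 : Finset (Set Y), (𝓒.card : ℝ) ≤ C / r ^ 4 ∧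
    (∀ p : Y, ‖p.1‖ ≤ 3 / 2 → ∃ c ∈ 𝓒, p ∈ c) ∧ ∀ c ∈ 𝓒, ∀ p ∈ c, ∀ p' ∈ c, dist p p' ≤ r

def RF0 : Prop := ∀ q, Pre q → Bas q → Fl q → Cap q ∧ Safe q ∧ UC q
def RF1 : Prop := ∀ (β : ℝ) q E, Prof β q E → Fl q → FlatA q → FlatB q → Lip → Cap q → UC q →
  Step q E
def RF2 : Prop := Lip
def RF3a : Prop := ∀ (X : Type) [TopologicalSpace X] [T2Space X]
  (Q : Fin 4 → OpenPartialHomeomorph Y X), Ph Q → Lip → Switch Q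
def RF3 : Prop := ∀ (X : Type) [TopologicalSpace X] (Q : Fin 4 → OpenPartialHomeomorph Y X) q E
  (Φ : Flow ℝ X), Lip → Step q E → Switch Q → Loc q Q Φ → Track E Q Φ
def RF4 : Prop := ∀ (X : Type) [TopologicalSpace X] [MeasurableSpace X] [BorelSpace X]
  (Q : Fin 4 → OpenPartialHomeomorph Y X) (β : ℝ) q E (Φ : Flow ℝ X) (μ : Measure X) (c : ℝ≥0),
  Ph Q → Prof β q E → Fl q → MM q → Loc q Q Φ → Mu q Q μ c →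
  (∀ t, MeasurePreserving (Φ t) μ μ) → BadM E Q Φ μ
def RF5a : Prop := Cells
def RF5b : Prop := ∀ (X : Type) [TopologicalSpace X] (Q : Fin 4 → OpenPartialHomeomorph Y X)
  (Φ : Flow ℝ X), Ph Q → Tube Q Φ
def RF5 : Prop := ∀ (X : Type) [TopologicalSpace X] [MeasurableSpace X]
  (Q : Fin 4 → OpenPartialHomeomorph Y X) q E (Φ : Flow ℝ X) (μ : Measure X),
  Ph Q → Lip → Safe q → Loc q Q Φ → Track E Q Φ → BadM E Q Φ μ → Tube Q Φ → Cells → Bow μ (Φ 1)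

/-! ### Block C: the surface -/

/-- The surface `w² = Im a + i Im b` over the torus `|a| = |b| = 1`. -/
abbrev Srf : Type :=
  {t : ℂ × ℂ × ℂ // ‖t.1‖ = 1 ∧ ‖t.2.1‖ = 1 ∧ t.2.2 ^ 2 = t.1.im + t.2.1.im * I}

def e1 : Fin 4 → ℝ := ![1, -1, 1, -1]
def e2 : Fin 4 → ℝ := ![1, -1, -1, 1]
def JJ (j : Fin 4) (w : ℂ) : ℂ := ![w, I * w, conj w, I * conj w] j
def FF (z : ℂ) : ℂ := Real.sin (Real.pi * z.re) + Real.sin (Real.pi * z.im) * I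

/-- The point over `z` with third coordinate built from a square root `w` of `FF z`. -/
def pt (j : Fin 4) (z w : ℂ) (h : w ^ 2 = FF z) : Srf :=
  ⟨(e1 j * exp (Real.pi * z.re * I), e2 j * exp (Real.pi * z.im * I), JJ j w), by
    have a1 : ‖exp (Real.pi * z.re * I)‖ = 1 := by
      rw [← Complex.ofReal_mul]; exact Complex.norm_exp_ofReal_mul_I _
    have a2 : ‖exp (Real.pi * z.im * I)‖ = 1 := by
      rw [← Complex.ofReal_mul]; exact Complex.norm_exp_ofReal_mul_I _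
    have b1 : (exp (Real.pi * z.re * I)).im = Real.sin (Real.pi * z.re) := by
      rw [← Complex.ofReal_mul]; exact Complex.exp_ofReal_mul_I_im _
    have b2 : (exp (Real.pi * z.im * I)).im = Real.sin (Real.pi * z.im) := by
      rw [← Complex.ofReal_mul]; exact Complex.exp_ofReal_mul_I_im _
    have c1 : conj w ^ 2 = Real.sin (Real.pi * z.re) - Real.sin (Real.pi * z.im) * I := by
      rw [← map_pow, h, FF, map_add, map_mul, conj_ofReal, conj_ofReal, conj_I]; ring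
    rw [FF] at h
    simp only [norm_mul, a1, a2, Complex.im_ofReal_mul, b1, b2, mul_one, Complex.norm_real]
    fin_cases j
    · simp only [e1, e2, JJ]; simp; simpa using h
    · simp only [e1, e2, JJ]; simp
      simp only [Complex.ofReal_sin, Complex.ofReal_mul] at h
      linear_combination (-1 : ℂ) * h + w ^ 2 * Complex.I_sq
    · simp only [e1, e2, JJ]; simp
      simp only [Complex.ofReal_sin, Complex.ofReal_mul] at c1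
      linear_combination c1
    · simp only [e1, e2, JJ]; simp
      simp only [Complex.ofReal_sin, Complex.ofReal_mul] at c1
      linear_combination (-1 : ℂ) * c1 + conj w ^ 2 * Complex.I_sq⟩

theorem sq_root (w : ℂ) : (w ^ ((2 : ℂ)⁻¹)) ^ 2 = w := by
  simp

/-- The charts at the four branch points. -/
def Pm (j : Fin 4) (y : ℂ) : Srf :=
  pt j (y ^ 2) ((FF (y ^ 2) / y ^ 2) ^ ((2 : ℂ)⁻¹) * y) (by
    rw [mul_pow, sq_root]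
    by_cases h : y = 0
    · simp [h, FF]
    · field_simp)

/-- The eight closed squares: `z` runs over the unit square. -/
def Sq (j : Fin 4) (σ : Bool) (z : ℂ) : Srf :=
  pt j z (if σ then FF z ^ ((2 : ℂ)⁻¹) else -FF z ^ ((2 : ℂ)⁻¹)) (by
    cases σ <;> simp)

structure BA {M : Type} [TopologicalSpace M] (P : Fin 4 → OpenPartialHomeomorph ℂ M) : Prop where
  src : ∀ j, (P j).source = {y | ‖y‖ ^ 2 < 17 / 20}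
  cov : ∀ v, ∃ j y, ‖y‖ ^ 2 ≤ 3 / 4 ∧ P j y = v
  ovl : ∀ j l y y', ‖y‖ ^ 2 < 17 / 20 → ‖y'‖ ^ 2 < 17 / 20 → P j y = P l y' → j = l ∨
    (1 ≤ ‖y‖ ^ 2 + ‖y'‖ ^ 2 ∧ ∃ m n : ℤ, y ^ 2 - y' ^ 2 = m + n * I)

structure CA {M : Type} [TopologicalSpace M] [ChartedSpace ℂ M]
    (P : Fin 4 → OpenPartialHomeomorph ℂ M) : Prop extends BA P where
  atl : ∀ e ∈ atlas ℂ M, ∃ j, e = (P j).symm
  ctr : ∀ j, chartAt ℂ (P j 0) = (P j).symm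

def RC1a : Prop := ∀ j, ContinuousOn (Pm j) {y | ‖y‖ ^ 2 < 1} ∧ InjOn (Pm j) {y | ‖y‖ ^ 2 < 1}
def RC1b : Prop := (∀ j, IsOpen (Pm j '' {y | ‖y‖ ^ 2 < 17 / 20})) ∧
  (∀ v, ∃ j y, ‖y‖ ^ 2 ≤ 3 / 4 ∧ Pm j y = v) ∧
  ∀ j l y y', Pm j y = Pm l y' → j = l ∨
    (1 ≤ ‖y‖ ^ 2 + ‖y'‖ ^ 2 ∧ ∃ m n : ℤ, y ^ 2 - y' ^ 2 = m + n * I)
def RC1 : Prop := ∃ P : Fin 4 → OpenPartialHomeomorph ℂ Srf, BA P
def RC2a : Prop := (∀ j σ, ContinuousOn (Sq j σ) (Icc 0 1 ×ℂ Icc 0 1)) ∧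
  (∀ v, ∃ j σ, ∃ z ∈ Icc 0 1 ×ℂ Icc 0 1, Sq j σ z = v) ∧ CompactSpace Srf ∧ ConnectedSpace Srf
def RC2 : Prop := HasGenus Srf 3

def Tran {M : Type} [TopologicalSpace M] (P : Fin 4 → OpenPartialHomeomorph ℂ M) : Prop :=
  ∀ j l y, ‖y‖ ^ 2 < 17 / 20 → P j y ∈ (P l).target →
    ContDiffAt ℝ ∞ (fun z => (P l).symm (P j z)) y ∧ ∃ c : ℂ, c ≠ 0 ∧
      HasDerivAt (fun z => (P l).symm (P j z)) c y ∧ (P l).symm (P j y) * c = y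

def RC3a : Prop := ∀ (M : Type) [TopologicalSpace M] (P : Fin 4 → OpenPartialHomeomorph ℂ M),
  BA P → Tran P
def RC3b : Prop := ∀ (M : Type) [TopologicalSpace M] (P : Fin 4 → OpenPartialHomeomorph ℂ M),
  BA P → Tran P → ∃ _ : ChartedSpace ℂ M, CA P ∧ IsManifold 𝓘(ℝ, ℂ) ∞ M ∧ Oriented M

/-- The metric in the conformal coordinate. -/
def GG (nn : ℂ → ℝ) (y a b : ℂ) : ℝ := nn y ^ 2 * (a.re * b.re + a.im * b.im)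

structure Reg (β : ℝ≥0) (nn : ℂ → ℝ) : Prop where
  c1 : ∀ a b, ContDiff ℝ 1 fun y => GG nn y a b
  hol : ∀ a b y, ∃ C, ∃ U ∈ 𝓝 y, HolderOnWith C β (fderiv ℝ fun y => GG nn y a b) U

def RC5a : Prop := ∀ (β : ℝ≥0) q E H nn, β ≤ 1 → Prof β q E → Rad q H nn → Reg β nn
def RC5b : Prop := ∀ (β : ℝ) q E H nn, Prof β q E → Rad q H nn →
  ∃ N : Set ℂ, IsClosed N ∧ volume N = 0 ∧ ∀ a b, ContDiffOn ℝ ∞ (fun y => GG nn y a b) Nᶜ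

/-- The Euler-Lagrange equation is the model equation. -/
def EL (q : ℝ → ℝ) (H : ℂ ≃ₜ ℂ) (nn : ℂ → ℝ) : Prop :=
  ∀ (y w : ℝ → ℂ) (γ : ℝ → Y) (t : ℝ),
    (∀ᶠ s in 𝓝 t, y s = H (γ s).1 ∧ w s = ((γ s).2 : ℂ) / nn (H (γ s).1)) →
    ((HasDerivAt y (w t) t ∧ ∀ a : ℂ, HasDerivAt (fun s => GG nn (y s) (w s) a)
      (1 / 2 * fderiv ℝ (fun z => GG nn z (w t) (w t)) (y t) a) t) ↔ Ode q γ t)

def RC6 : Prop := ∀ q H nn, Pre q → Rad q H nn → EL q H nn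

def ConeM (q : ℝ → ℝ) (H : ℂ ≃ₜ ℂ) (nn : ℂ → ℝ) : Prop :=
  ∀ A : Set Y, MeasurableSet A → mm q A = ∫⁻ z in {z : ℂ × ℂ | ∃ p ∈ A, ∃ r ∈ Ioc (0 : ℝ) 1,
    z = (H p.1, r • ((p.2 : ℂ) / nn (H p.1)))}, ENNReal.ofReal (nn z.1 ^ 4)

def RC8a : Prop := ∀ q H nn, Pre q → Rad q H nn →
  Measure.map H (volume.withDensity fun x : ℂ => ENNReal.ofReal (SS q (‖x‖ ^ 2))) =
    volume.withDensity fun y : ℂ => ENNReal.ofReal (nn y ^ 2)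
def RC8b : Prop := ∀ q H nn, Pre q → Rad q H nn → CM → ConeM q H nn

section
variable {M : Type} [TopologicalSpace M] [ChartedSpace ℂ M] [IsManifold 𝓘(ℝ, ℂ) ∞ M]

theorem crd_eq (x : M) (v : TangentBundle 𝓘(ℝ, ℂ) M) :
    crd x v = (chartAt ℂ x v.1, tangentCoordChange 𝓘(ℝ, ℂ) v.1 x v.1 v.2) := rfl

theorem crd_congr {x x' : M} (h : chartAt ℂ x = chartAt ℂ x') : crd x = crd x' := by
  funext v
  rw [crd_eq, crd_eq, tangentCoordChange_def, tangentCoordChange_def]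
  simp only [extChartAt, h]

/-- The product of position and velocity does not depend on the chart. -/
def Inv (M : Type) [TopologicalSpace M] [ChartedSpace ℂ M] [IsManifold 𝓘(ℝ, ℂ) ∞ M] : Prop :=
  ∀ (x x' : M) (v : TangentBundle 𝓘(ℝ, ℂ) M), v.1 ∈ (chartAt ℂ x).source →
    v.1 ∈ (chartAt ℂ x').source → (crd x' v).1 * (crd x' v).2 = (crd x v).1 * (crd x v).2

structure QF {β : ℝ≥0} (P : Fin 4 → OpenPartialHomeomorph ℂ M) (H : ℂ ≃ₜ ℂ) (nn : ℂ → ℝ)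
    (m : Met β M) (Q : Fin 4 → OpenPartialHomeomorph Y m.SM) : Prop where
  src : ∀ j, (Q j).source = {p | ‖p.1‖ < 17 / 10}
  tgt : ∀ j, (Q j).target = {v | v.1.1 ∈ (P j).target}
  base : ∀ j p, ‖p.1‖ < 17 / 10 → (Q j p).1.1 = P j (H p.1)
  coord : ∀ j p, ‖p.1‖ < 17 / 10 → crd (P j 0) (Q j p).1 = (H p.1, (p.2 : ℂ) / nn (H p.1))

end

def RC3c : Prop := ∀ (M : Type) [TopologicalSpace M] [ChartedSpace ℂ M] [IsManifold 𝓘(ℝ, ℂ) ∞ M]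
  (P : Fin 4 → OpenPartialHomeomorph ℂ M), CA P → Tran P → Inv M
def RC4 : Prop := ∀ (M : Type) [TopologicalSpace M] [ChartedSpace ℂ M] [IsManifold 𝓘(ℝ, ℂ) ∞ M]
  (P : Fin 4 → OpenPartialHomeomorph ℂ M) (β : ℝ≥0) q H nn, CA P → Inv M → Rad q H nn →
  Reg β nn → ∃ m : Met β M, ∀ x, m.G x = GG nn
def RC7a : Prop := ∀ (M : Type) [TopologicalSpace M] [T2Space M] [ChartedSpace ℂ M]
  [IsManifold 𝓘(ℝ, ℂ) ∞ M], T2Space (TangentBundle 𝓘(ℝ, ℂ) M)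
def RC7b : Prop := ∀ (M : Type) [TopologicalSpace M] [ChartedSpace ℂ M] [IsManifold 𝓘(ℝ, ℂ) ∞ M]
  (P : Fin 4 → OpenPartialHomeomorph ℂ M) (β : ℝ≥0) q H nn (m : Met β M), CA P → Rad q H nn →
  (∀ x, m.G x = GG nn) → ∃ Q, QF P H nn m Q
def RC7c : Prop := ∀ (M : Type) [TopologicalSpace M] [ChartedSpace ℂ M] [IsManifold 𝓘(ℝ, ℂ) ∞ M]
  (P : Fin 4 → OpenPartialHomeomorph ℂ M) (β : ℝ≥0) q H nn (m : Met β M) Q, CA P → Inv M →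
  Rad q H nn → QF P H nn m Q → Ph Q
def RC9 : Prop := ∀ (M : Type) [TopologicalSpace M] [ChartedSpace ℂ M] [IsManifold 𝓘(ℝ, ℂ) ∞ M]
  (P : Fin 4 → OpenPartialHomeomorph ℂ M) (β : ℝ≥0) q H nn (m : Met β M) Q, CA P →
  (∀ x, m.G x = GG nn) → QF P H nn m Q → EL q H nn →
  (∀ V, Sol q Q V → m.Geod V) ∧ ∀ V, m.Geod V → SolE q Q V
def RC8 : Prop := ∀ (M : Type) [TopologicalSpace M] [ChartedSpace ℂ M] [IsManifold 𝓘(ℝ, ℂ) ∞ M]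
  (P : Fin 4 → OpenPartialHomeomorph ℂ M) (β : ℝ≥0) q H nn (m : Met β M) Q
  (μ : Measure m.SM) (c : ℝ≥0), CA P → (∀ x, m.G x = GG nn) → QF P H nn m Q → ConeM q H nn →
  Mu q Q μ c → m.Liouville μ

end Pool.Agent.MP_ff5407_an.H58
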